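import Pool.Agent.Work.MP_959bfa_wn.Interface

namespace Wn
namespace L1

open Finset

theorem cr_trans {ι : Type} {R : ι → Bx} {i j k : ι} (h1 : Cr R i j) (h2 : Cr R j k) :
    Cr R i k := by
  obtain ⟨a1, a2, a3, a4⟩ := h1
  obtain ⟨b1, b2, b3, b4⟩ := h2
  exact ⟨lt_trans b1 a1, lt_trans a2 b2, lt_trans a3 b3, lt_trans b4 a4⟩

theorem pv_up {ι : Type} {R : ι → Bx} {J : Finset ι} {m : ℕ} {i j : ι} (h : Cr R i j)
    (hi : PV R J m i) : PV R J m j := by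
  obtain ⟨x, hx1, hx2, hx⟩ := hi
  obtain ⟨a1, a2, a3, a4⟩ := h
  refine ⟨x, by linarith, by linarith, fun y hy1 hy2 => ?_⟩
  refine le_trans (Finset.card_le_card ?_) (hx y (by linarith) (by linarith))
  intro k hk
  rw [mem_fl] at hk ⊢
  refine ⟨hk.1, hk.2.1, fun hc => hk.2.2 (cr_trans hc ⟨a1, a2, a3, a4⟩)⟩

theorem lemA {ι : Type} {R : ι → Bx} {J : Finset ι} {m : ℕ} {i : ι} (hiJ : i ∈ J)
    (hi : PV R J m i) :
    ∃ x, (R i).l ≤ x ∧ x ≤ (R i).r ∧ ∀ y, (R i).b ≤ y → y ≤ (R i).t →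
      (fl J (fun k => In (R k) x y ∧ PV R J m k)).card ≤ m := by
  have hne : (fl J (fun k => (k = i ∨ Cr R k i) ∧ PV R J m k)).Nonempty :=
    ⟨i, mem_fl.2 ⟨hiJ, Or.inl rfl, hi⟩⟩
  obtain ⟨v, hv, hmax⟩ := Finset.exists_max_image _ (fun k => (R k).l) hne
  rw [mem_fl] at hv
  obtain ⟨hvJ, hvi, x, hx1, hx2, hx⟩ := hv
  have hb : (R i).l ≤ (R v).l ∧ (R v).r ≤ (R i).r ∧ (R v).b ≤ (R i).b ∧ (R i).t ≤ (R v).t := by
    rcases hvi with rfl | ⟨a1, a2, a3, a4⟩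
    · exact ⟨le_refl _, le_refl _, le_refl _, le_refl _⟩
    · exact ⟨a1.le, a2.le, a3.le, a4.le⟩
  obtain ⟨b1, b2, b3, b4⟩ := hb
  refine ⟨x, by linarith, by linarith, fun y hy1 hy2 => ?_⟩
  refine le_trans (Finset.card_le_card ?_) (hx y (by linarith) (by linarith))
  intro k hk
  rw [mem_fl] at hk ⊢
  refine ⟨hk.1, hk.2.1, fun hc => ?_⟩
  have h1 : k ∈ fl J (fun k => (k = i ∨ Cr R k i) ∧ PV R J m k) := by
    refine mem_fl.2 ⟨hk.1, Or.inr ?_, hk.2.2⟩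
    rcases hvi with h | h
    · rw [h] at hc; exact hc
    · exact cr_trans hc h
  have h2 := hmax k h1
  have h3 := hc.1

  linarith

theorem lemB {ι : Type} {R : ι → Bx} {J : Finset ι} {h : ℕ} {i : ι} (hiJ : i ∈ J)
    (hi : QH R J h i) :
    ∃ y, (R i).b ≤ y ∧ y ≤ (R i).t ∧
      h ≤ (fl J (fun k => Cr R i k ∧ ((R k).b ≤ y ∧ y ≤ (R k).t) ∧ ¬ QH R J h k)).card := by
  have hne : (fl J (fun k => (k = i ∨ Cr R i k) ∧ QH R J h k)).Nonempty :=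
    ⟨i, mem_fl.2 ⟨hiJ, Or.inl rfl, hi⟩⟩
  obtain ⟨w, hw, hmin⟩ := Finset.exists_min_image _ (fun k => (R k).l) hne
  rw [mem_fl] at hw
  obtain ⟨hwJ, hwi, y, hy1, hy2, hy⟩ := hw
  have hb : (R i).b ≤ (R w).b ∧ (R w).t ≤ (R i).t := by
    rcases hwi with rfl | ⟨a1, a2, a3, a4⟩
    · exact ⟨le_refl _, le_refl _⟩
    · exact ⟨a3.le, a4.le⟩
  obtain ⟨b1, b2⟩ := hb
  refine ⟨y, by linarith, by linarith, le_trans hy (Finset.card_le_card ?_)⟩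
  intro k hk
  rw [mem_fl] at hk ⊢
  have hik : Cr R i k := by
    rcases hwi with h | h
    · rw [← h]; exact hk.2.1
    · exact cr_trans h hk.2.1
  refine ⟨hk.1, hik, hk.2.2, fun hc => ?_⟩
  have h1 : k ∈ fl J (fun k => (k = i ∨ Cr R i k) ∧ QH R J h k) :=
    mem_fl.2 ⟨hk.1, Or.inr hik, hc⟩
  have h2 := hmin k h1
  have h3 := hk.2.1.1

  linarith

theorem lemC {ι : Type} {R : ι → Bx} {J : Finset ι} {m h : ℕ} (f g : ι → ℝ)
    (hf : ∀ i, i ∈ J → PV R J m i → (R i).l ≤ f i ∧ f i ≤ (R i).r ∧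
      ∀ y, (R i).b ≤ y → y ≤ (R i).t →
        (fl J (fun k => In (R k) (f i) y ∧ PV R J m k)).card ≤ m)
    (hg : ∀ i, i ∈ J → QH R J h i → (R i).b ≤ g i ∧ g i ≤ (R i).t ∧
      h ≤ (fl J (fun k => Cr R i k ∧ ((R k).b ≤ g i ∧ g i ≤ (R k).t) ∧ ¬ QH R J h k)).card)
    (Q : Finset ι) (hQ : ∀ i ∈ Q, i ∈ J ∧ PV R J m i ∧ QH R J h i)
    (i0 i1 : ι) (h0 : i0 ∈ Q) (h1 : i1 ∈ Q) (hin : ∀ i ∈ Q, In (R i) (f i0) (g i1)) :
    Q.card ≤ m - h := by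
  classical
  obtain ⟨a0, p0, q0⟩ := hQ i0 h0
  obtain ⟨a1, p1, q1⟩ := hQ i1 h1
  obtain ⟨_, _, hcard⟩ := hf i0 a0 p0
  obtain ⟨_, _, hH⟩ := hg i1 a1 q1
  have hz0 := hin i0 h0
  have hz1 := hin i1 h1
  have hm := hcard (g i1) hz0.2.2.1 hz0.2.2.2
  set H := fl J (fun k => Cr R i1 k ∧ ((R k).b ≤ g i1 ∧ g i1 ≤ (R k).t) ∧ ¬ QH R J h k) with hHd
  have hdis : Disjoint Q H := by
    rw [Finset.disjoint_left]
    intro k hk hk2
    exact (mem_fl.1 hk2).2.2.2 (hQ k hk).2.2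
  have hsub : Q ∪ H ⊆ fl J (fun k => In (R k) (f i0) (g i1) ∧ PV R J m k) := by
    intro k hk
    rw [Finset.mem_union] at hk
    rcases hk with hk | hk
    · exact mem_fl.2 ⟨(hQ k hk).1, hin k hk, (hQ k hk).2.1⟩
    · obtain ⟨b1, b2, b3, b4⟩ := mem_fl.1 hk
      refine mem_fl.2 ⟨b1, ⟨?_, ?_, b3.1, b3.2⟩, pv_up b2 p1⟩
      · have := b2.1; have := hz1.1; linarith
      · have := b2.2.1; have := hz1.2.1; linarith
  have hc := Finset.card_le_card hsub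
  rw [Finset.card_union_of_disjoint hdis] at hc
  omega

/-- the extreme element of a one sided set -/
theorem ext {ι : Type} (Q : Finset ι) (hne : Q.Nonempty) (f : ι → ℝ) (q : ℝ)
    (hs : (∀ i ∈ Q, q ≤ f i) ∨ (∀ i ∈ Q, f i < q)) :
    ∃ i0 ∈ Q, ∀ i ∈ Q, (q ≤ f i0 ∧ f i0 ≤ f i) ∨ (f i ≤ f i0 ∧ f i0 ≤ q) := by
  rcases hs with hs | hs
  · obtain ⟨i0, h0, hmin⟩ := Finset.exists_min_image Q f hne
    exact ⟨i0, h0, fun i hi => Or.inl ⟨hs i0 h0, hmin i hi⟩⟩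
  · obtain ⟨i0, h0, hmax⟩ := Finset.exists_max_image Q f hne
    exact ⟨i0, h0, fun i hi => Or.inr ⟨hmax i hi, (hs i0 h0).le⟩⟩

theorem lemD {ι : Type} {R : ι → Bx} {J : Finset ι} {m h : ℕ} (f g : ι → ℝ)
    (hf : ∀ i, i ∈ J → PV R J m i → (R i).l ≤ f i ∧ f i ≤ (R i).r ∧
      ∀ y, (R i).b ≤ y → y ≤ (R i).t →
        (fl J (fun k => In (R k) (f i) y ∧ PV R J m k)).card ≤ m)
    (hg : ∀ i, i ∈ J → QH R J h i → (R i).b ≤ g i ∧ g i ≤ (R i).t ∧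
      h ≤ (fl J (fun k => Cr R i k ∧ ((R k).b ≤ g i ∧ g i ≤ (R k).t) ∧ ¬ QH R J h k)).card)
    (x y : ℝ)
    (Q : Finset ι) (hQ : ∀ i ∈ Q, i ∈ J ∧ PV R J m i ∧ QH R J h i ∧ In (R i) x y)
    (hs : (∀ i ∈ Q, x ≤ f i) ∨ (∀ i ∈ Q, f i < x))
    (ht : (∀ i ∈ Q, y ≤ g i) ∨ (∀ i ∈ Q, g i < y)) :
    Q.card ≤ m - h := by
  rcases Q.eq_empty_or_nonempty with he | hne
  · rw [he]; simp
  obtain ⟨i0, h0, H0⟩ := ext Q hne f x hs
  obtain ⟨i1, h1, H1⟩ := ext Q hne g y ht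
  refine lemC f g hf hg Q (fun i hi => ⟨(hQ i hi).1, (hQ i hi).2.1, (hQ i hi).2.2.1⟩)
    i0 i1 h0 h1 ?_
  intro i hi
  obtain ⟨c1, c2, c3, c4, c5, c6, c7⟩ := hQ i hi
  obtain ⟨d1, d2, _⟩ := hf i c1 c2
  obtain ⟨e1, e2, _⟩ := hg i c1 c3
  refine ⟨?_, ?_, ?_, ?_⟩
  · rcases H0 i hi with ⟨u, v⟩ | ⟨u, v⟩ <;> linarith
  · rcases H0 i hi with ⟨u, v⟩ | ⟨u, v⟩ <;> linarith
  · rcases H1 i hi with ⟨u, v⟩ | ⟨u, v⟩ <;> linarith
  · rcases H1 i hi with ⟨u, v⟩ | ⟨u, v⟩ <;> linarith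

end L1

open Finset

/-- LEM1 -/
theorem LEM1 : stmt_LEM1 := by
  classical
  intro ι R J m h _ x y
  have hA : ∀ i, ∃ x, i ∈ J → PV R J m i → (R i).l ≤ x ∧ x ≤ (R i).r ∧
      ∀ y, (R i).b ≤ y → y ≤ (R i).t →
        (fl J (fun k => In (R k) x y ∧ PV R J m k)).card ≤ m := by
    intro i
    by_cases h1 : i ∈ J ∧ PV R J m i
    · obtain ⟨x, hx⟩ := L1.lemA h1.1 h1.2
      exact ⟨x, fun _ _ => hx⟩
    · exact ⟨0, fun a b => absurd ⟨a, b⟩ h1⟩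
  have hB : ∀ i, ∃ y, i ∈ J → QH R J h i → (R i).b ≤ y ∧ y ≤ (R i).t ∧
      h ≤ (fl J (fun k => Cr R i k ∧ ((R k).b ≤ y ∧ y ≤ (R k).t) ∧ ¬ QH R J h k)).card := by
    intro i
    by_cases h1 : i ∈ J ∧ QH R J h i
    · obtain ⟨x, hx⟩ := L1.lemB h1.1 h1.2
      exact ⟨x, fun _ _ => hx⟩
    · exact ⟨0, fun a b => absurd ⟨a, b⟩ h1⟩
  choose f hf using hA
  choose g hg using hB
  set S := fl J (fun i => PV R J m i ∧ QH R J h i ∧ In (R i) x y) with hS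
  have hmem : ∀ i ∈ S, i ∈ J ∧ PV R J m i ∧ QH R J h i ∧ In (R i) x y := fun i hi => mem_fl.1 hi
  set S1 := S.filter (fun i => x ≤ f i ∧ y ≤ g i) with hS1
  set S2 := S.filter (fun i => x ≤ f i ∧ ¬ y ≤ g i) with hS2
  set S3 := S.filter (fun i => ¬ x ≤ f i ∧ y ≤ g i) with hS3
  set S4 := S.filter (fun i => ¬ x ≤ f i ∧ ¬ y ≤ g i) with hS4
  have hcov : S ⊆ S1 ∪ S2 ∪ S3 ∪ S4 := by
    intro i hi
    simp only [Finset.mem_union, hS1, hS2, hS3, hS4, Finset.mem_filter]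
    by_cases a : x ≤ f i
    · by_cases b : y ≤ g i
      · exact Or.inl (Or.inl (Or.inl ⟨hi, a, b⟩))
      · exact Or.inl (Or.inl (Or.inr ⟨hi, a, b⟩))
    · by_cases b : y ≤ g i
      · exact Or.inl (Or.inr ⟨hi, a, b⟩)
      · exact Or.inr ⟨hi, a, b⟩
  have k1 : S1.card ≤ m - h := by
    refine L1.lemD f g hf hg x y S1 (fun i hi => hmem i (Finset.mem_filter.1 hi).1)
      (Or.inl fun i hi => (Finset.mem_filter.1 hi).2.1)
      (Or.inl fun i hi => (Finset.mem_filter.1 hi).2.2)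
  have k2 : S2.card ≤ m - h := by
    refine L1.lemD f g hf hg x y S2 (fun i hi => hmem i (Finset.mem_filter.1 hi).1)
      (Or.inl fun i hi => (Finset.mem_filter.1 hi).2.1)
      (Or.inr fun i hi => lt_of_not_ge (Finset.mem_filter.1 hi).2.2)
  have k3 : S3.card ≤ m - h := by
    refine L1.lemD f g hf hg x y S3 (fun i hi => hmem i (Finset.mem_filter.1 hi).1)
      (Or.inr fun i hi => lt_of_not_ge (Finset.mem_filter.1 hi).2.1)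
      (Or.inl fun i hi => (Finset.mem_filter.1 hi).2.2)
  have k4 : S4.card ≤ m - h := by
    refine L1.lemD f g hf hg x y S4 (fun i hi => hmem i (Finset.mem_filter.1 hi).1)
      (Or.inr fun i hi => lt_of_not_ge (Finset.mem_filter.1 hi).2.1)
      (Or.inr fun i hi => lt_of_not_ge (Finset.mem_filter.1 hi).2.2)
  have c0 := Finset.card_le_card hcov
  have c1 := Finset.card_union_le (S1 ∪ S2 ∪ S3) S4
  have c2 := Finset.card_union_le (S1 ∪ S2) S3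
  have c3 := Finset.card_union_le S1 S2
  omega

end Wn
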